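import Pool.Agent.N993.RK.Stm

/-!
# Iwasawa's criterion

Project RK (helper993), part RK/SIMP (helper507).
-/

set_option autoImplicit false
set_option linter.all false

namespace Pool.Agent.N507.RK

open Pool.Agent.N993.RK

theorem comm_top {S T : Type} [Group S] [Group T] (f : S →* T) (hf : Function.Surjective f)
    (h : commutator S = ⊤) : commutator T = ⊤ := by
  rw [← derivedSeries_one, ← map_derivedSeries_eq hf, derivedSeries_one, h]
  exact Subgroup.map_top_of_surjective f hf

theorem t_simp : S_SIMP := by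
  intro S _ X φ x U hX h3 h2t hfix hconj huniq hcomm hsolv hnc
  have hS : commutator S = ⊤ := by
    apply top_unique
    rw [← hnc]
    exact Subgroup.normalClosure_le_normal hcomm
  have inv_self : ∀ (σ : Equiv.Perm X) (a : X), σ⁻¹ (σ a) = a := fun σ a => σ.symm_apply_apply a
  have hnt : Nontrivial X := (Finite.one_lt_card_iff_nontrivial).1 (by omega)
  have htr : ∀ a b : X, ∃ g : S, φ g a = b := by
    intro a b
    obtain ⟨a', ha'⟩ := exists_ne a
    obtain ⟨b', hb'⟩ := exists_ne b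
    obtain ⟨g, hg, -⟩ := h2t a a' b b' ha'.symm hb'.symm
    exact ⟨g, hg⟩
  have key : ∀ K : Subgroup S, K.Normal → (∃ n ∈ K, φ n ≠ 1) → K = ⊤ := by
    rintro K hK ⟨n, hn, hn1⟩
    obtain ⟨y, hy⟩ : ∃ y, φ n y ≠ y := by
      by_contra h
      push Not at h
      exact hn1 (Equiv.ext h)
    have htrK : ∀ a b : X, ∃ m ∈ K, φ m a = b := by
      intro a b
      by_cases hab : a = b
      · exact ⟨1, K.one_mem, by rw [map_one, hab]; rfl⟩
      · obtain ⟨g, hg1, hg2⟩ := h2t y (φ n y) a b hy.symm hab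
        refine ⟨g * n * g⁻¹, hK.conj_mem n hn g, ?_⟩
        rw [map_mul, map_mul, map_inv, Equiv.Perm.mul_apply, Equiv.Perm.mul_apply, ← hg1,
          inv_self, hg2]
    have hsup : K ⊔ U = ⊤ := by
      apply top_unique
      rw [← hnc, Subgroup.normalClosure, Subgroup.closure_le]
      intro z hz
      obtain ⟨u, hu, hz⟩ := Group.mem_conjugatesOfSet_iff.1 hz
      obtain ⟨g, rfl⟩ := isConj_iff.1 hz
      obtain ⟨m, hm, hmx⟩ := htrK x (φ g x)
      have hfx : φ (m⁻¹ * g) x = x := by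
        rw [map_mul, Equiv.Perm.mul_apply, ← hmx, map_inv, inv_self]
      have h1 := hconj u hu _ hfx
      have e : g * u * g⁻¹ = m * (m⁻¹ * g * u * (m⁻¹ * g)⁻¹) * m⁻¹ := by group
      rw [SetLike.mem_coe, e]
      exact mul_mem (mul_mem (Subgroup.mem_sup_left hm) (Subgroup.mem_sup_right h1))
        (inv_mem (Subgroup.mem_sup_left hm))
    by_contra hne
    haveI := hK
    haveI : Nontrivial (S ⧸ K) := QuotientGroup.nontrivial_iff.2 hne
    have hsurj : Function.Surjective ((QuotientGroup.mk' K).comp U.subtype) := by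
      intro q
      obtain ⟨s, rfl⟩ := QuotientGroup.mk'_surjective K q
      have hs : s ∈ K ⊔ U := by rw [hsup]; exact Subgroup.mem_top s
      obtain ⟨a, ha, b, hb, rfl⟩ := Subgroup.mem_sup_of_normal_left.1 hs
      refine ⟨⟨b, hb⟩, ?_⟩
      have ha1 : (QuotientGroup.mk' K) a = 1 := (QuotientGroup.eq_one_iff a).2 ha
      show (QuotientGroup.mk' K) b = (QuotientGroup.mk' K) (a * b)
      rw [map_mul, ha1, one_mul]
    haveI := hsolv
    haveI : Group.IsSolvable (S ⧸ K) := Group.isSolvable_of_surjective hsurj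
    have h4 := Group.IsSolvable.commutator_lt_top_of_nontrivial (S ⧸ K)
    rw [comm_top (QuotientGroup.mk' K) (QuotientGroup.mk'_surjective K) hS] at h4
    exact lt_irrefl _ h4
  have hrr : Function.Surjective φ.rangeRestrict := φ.rangeRestrict_surjective
  refine ⟨inferInstance, ?_, ?_, ?_⟩
  · haveI : Nontrivial φ.range := by
      obtain ⟨y, hy⟩ := exists_ne x
      obtain ⟨g, hg⟩ := htr x y
      refine ⟨φ.rangeRestrict g, 1, fun h => hy ?_⟩
      have h1 : φ g = 1 := congrArg Subtype.val h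
      rw [← hg, h1]
      rfl
    refine ⟨fun N hN => ?_⟩
    by_cases hb : N = ⊥
    · exact Or.inl hb
    · right
      have h1 : N.comap φ.rangeRestrict = ⊤ := by
        refine key _ (hN.comap _) ?_
        obtain ⟨⟨q, hq⟩, hq1⟩ := (Subgroup.ne_bot_iff_exists_ne_one).1 hb
        obtain ⟨n, rfl⟩ := hrr q
        refine ⟨n, hq, fun h => hq1 ?_⟩
        apply Subtype.ext
        apply Subtype.ext
        exact h
      rw [← Subgroup.map_comap_eq_self_of_surjective hrr N, h1]
      exact Subgroup.map_top_of_surjective _ hrr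
  · refine ⟨X, φ.range.subtype, hX, h3, ?_, x, U.map φ.rangeRestrict, ?_, ?_, ?_⟩
    · intro a b c d hab hcd
      obtain ⟨g, h1, h2⟩ := h2t a b c d hab hcd
      exact ⟨φ.rangeRestrict g, h1, h2⟩
    · rintro _ ⟨u, hu, rfl⟩
      exact hfix u hu
    · rintro _ ⟨u, hu, rfl⟩ h hh
      obtain ⟨s, rfl⟩ := hrr h
      exact ⟨s * u * s⁻¹, hconj u hu s hh, by rw [map_mul, map_mul, map_inv]⟩
    · intro y z hy hz
      obtain ⟨u, ⟨hu, huy⟩, hu'⟩ := huniq y z hy hz
      refine ⟨φ.rangeRestrict u, ⟨⟨u, hu, rfl⟩, huy⟩, ?_⟩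
      rintro _ ⟨⟨u', hu1, rfl⟩, hu2⟩
      rw [hu' u' ⟨hu1, hu2⟩]
  · refine Nat.card_le_card_of_surjective (fun q : φ.range => (q : Equiv.Perm X) x) ?_
    intro y
    obtain ⟨g, hg⟩ := htr x y
    exact ⟨φ.rangeRestrict g, hg⟩

end Pool.Agent.N507.RK
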